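import Mathlib
import Pool.Agent.H73.PD.Growth

/-!
# Plane distance graphs with `k` distances: base `1 - 1 / min J₀ > 3.48`, all lacunary sets

The exponential growth of `f(k)` (Q1) is in the library, with lower bound `3 ^ k`. Here the base is
`1 - 1 / min J₀ = 3.482...`, the bound holds for every lacunary set of pairwise commensurable
distances (with a ratio that does not depend on `k`), in a density (fractional) form, and the
growth constant is placed in `[3.482, 7]`.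
-/

set_option autoImplicit false

namespace Pool.Agent.Results.MP_843c79_co.BesselBase

open Filter Topology

/-- The Bessel function `J₀(x) = (1 / 2π) ∫_{-π}^{π} cos (x cos θ) dθ`. -/
noncomputable def J0 (x : ℝ) : ℝ :=
  (∫ θ in (-Real.pi)..Real.pi, Real.cos (x * Real.cos θ)) / (2 * Real.pi)

/-- `N` colours suffice to colour `ℝ ^ d` so that points at a distance in `H` get different
colours. -/
def Colourable (d : ℕ) (H : Finset ℝ) (N : ℕ) : Prop :=
  ∃ col : EuclideanSpace ℝ (Fin d) → Fin N, ∀ x y, dist x y ∈ H → col x ≠ col y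

/-- `h` lists `k` positive reals, each at least `Q` times the one before it, with pairwise rational
quotients. -/
def Lacunary (Q : ℝ) {k : ℕ} (h : Fin k → ℝ) : Prop :=
  (∀ i, 0 < h i) ∧ (∀ i j, i < j → Q * h i ≤ h j) ∧ ∀ i j, ∃ q : ℚ, h i = q * h j

/-- Fractional form of the bound `c ^ k` for the number of colours, for the distances `h i`: for every
`ε > 0` there is a finite sequence of points of the plane such that a set of points of the plane
without two points at a distance `h i` contains at most the proportion `c ^ (-k) + ε` of its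
terms. -/
def DensityBound (c : ℝ) {k : ℕ} (h : Fin k → ℝ) : Prop :=
  ∀ ε : ℝ, 0 < ε → ∃ (n : ℕ) (p : Fin n → EuclideanSpace ℝ (Fin 2)), 0 < n ∧
    ∀ A : Set (EuclideanSpace ℝ (Fin 2)), (∀ x ∈ A, ∀ y ∈ A, ∀ i, dist x y ≠ h i) →
      ({i | p i ∈ A}.ncard : ℝ) ≤ ((1 / c) ^ k + ε) * n

/-- Every colouring of `ℝ ^ d` without two points of the same colour at a distance `h i` has at
least `c ^ k` colours. -/
def ColourBound (d : ℕ) (c : ℝ) {k : ℕ} (h : Fin k → ℝ) : Prop :=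
  ∀ (N : ℕ) (col : EuclideanSpace ℝ (Fin d) → Fin N),
    (∀ x y, ∀ i, dist x y = h i → col x ≠ col y) → c ^ k ≤ N

theorem density_bound {c Q : ℝ} (c0 : 1 ≤ c) (hLP : Pool.Agent.H73.PD.LPI c Q) {k : ℕ}
    {h : Fin k → ℝ} (hh : Lacunary Q h) : DensityBound c h := by
  intro ε hε
  exact Pool.Agent.H73.PD.plane_dens c0 hLP k h hh.1 hh.2.2 hh.2.1 ε hε

theorem colour_bound {c Q : ℝ} (c0 : 1 ≤ c) (hLP : Pool.Agent.H73.PD.LPI c Q) {d : ℕ}
    (hd : 2 ≤ d) {k : ℕ} {h : Fin k → ℝ} (hh : Lacunary Q h) : ColourBound d c h :=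
  fun N col hcol => Pool.Agent.H73.PD.dim_col c0 hLP hd k h hh.1 hh.2.2 hh.2.1 N col hcol

theorem result :
    -- `-m` is the minimum of `J₀`, and `3.482 < 1 + 1 / m < 3.5`
    ∃ m : ℝ, IsLeast (Set.range J0) (-m) ∧ 0 < m ∧ 3.482 < 1 + 1 / m ∧ 1 + 1 / m < 3.5 ∧
    -- (1) in every dimension `d ≥ 2` the largest chromatic number `f k` of a graph on `ℝ ^ d`
    -- given by `k` distances exists; `(1 + 1 / m) ^ k ≤ f k ≤ (d + 1) ^ (d k)`, and `f k ≤ 7 ^ k`
    -- if `d = 2`; `f` is submultiplicative, and the growth constant `L = lim f(k) ^ (1/k)` exists,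
    -- satisfies `1 + 1 / m ≤ L ≤ f 1` and `L ^ k ≤ f k` for all `k`
    (∀ d : ℕ, 2 ≤ d → ∃ f : ℕ → ℕ,
      (∀ k, IsGreatest {n : ℕ | ∃ H : Finset ℝ, H.card = k ∧ (∀ h ∈ H, 0 < h) ∧
        IsLeast {N : ℕ | Colourable d H N} n} (f k)) ∧
      (∀ k, (1 + 1 / m) ^ k ≤ (f k : ℝ) ∧ f k ≤ ((d + 1) ^ d) ^ k) ∧
      (d = 2 → ∀ k, f k ≤ 7 ^ k) ∧
      (∀ k l, f (k + l) ≤ f k * f l) ∧
      ∃ L : ℝ, 1 + 1 / m ≤ L ∧ L ≤ f 1 ∧
        Tendsto (fun k : ℕ => (f k : ℝ) ^ (1 / (k : ℝ))) atTop (𝓝 L) ∧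
        ∀ k, L ^ k ≤ f k) ∧
    -- (2) for every base `c < 1 + 1 / m` there is a ratio `Q` such that for every `k` every
    -- lacunary list of `k` distances with ratio `Q` needs `c ^ k` colours, also fractionally
    (∀ c : ℝ, 1 ≤ c → c < 1 + 1 / m → ∃ Q : ℝ, 1 ≤ Q ∧ ∀ (k : ℕ) (h : Fin k → ℝ),
      Lacunary Q h → DensityBound c h ∧ ∀ d, 2 ≤ d → ColourBound d c h) ∧
    -- (3) an explicit case: base `3` and ratio `10 ^ 6`, in particular the distances `10 ^ (6 i)`
    (∀ (k : ℕ) (h : Fin k → ℝ), Lacunary (10 ^ 6) h →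
      DensityBound 3 h ∧ ∀ d, 2 ≤ d → ColourBound d 3 h) ∧
    ∀ k : ℕ, Lacunary (10 ^ 6) (fun i : Fin k => (10 : ℝ) ^ (6 * (i : ℕ))) := by
  obtain ⟨z, z1, z2, z3, z4⟩ := Pool.Agent.H73.PD.bA_min
  have hpi := Real.two_pi_pos
  set m : ℝ := -(Pool.Agent.H73.PD.bA z / (2 * Real.pi)) with hm
  have m1 : 0.401 ≤ m := by
    rw [hm, le_neg, div_le_iff₀ hpi]
    linarith
  have m2 : m ≤ 0.40277 := by
    rw [hm, neg_le, le_div_iff₀ hpi]
    linarith
  have m0 : 0 < m := lt_of_lt_of_le (by norm_num) m1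
  have hJ : ∀ x : ℝ, 0 ≤ x → -(2 * Real.pi * m) ≤ Pool.Agent.H73.PD.bA x := by
    intro x hx
    refine le_trans (le_of_eq ?_) (z2 x hx)
    rw [hm]
    field_simp
  have heven : ∀ x, J0 (-x) = J0 x := fun x => by
    simp only [J0, neg_mul, Real.cos_neg]
  refine ⟨m, ⟨⟨z, ?_⟩, ?_⟩, m0, ?_, ?_, ?_, ?_, ?_, ?_⟩
  · rw [hm, neg_neg]; rfl
  · rintro _ ⟨x, rfl⟩
    have key : ∀ x : ℝ, 0 ≤ x → -m ≤ J0 x := by
      intro x hx
      rw [J0, le_div_iff₀ hpi]
      have := hJ x hx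
      have e : (∫ θ in (-Real.pi)..Real.pi, Real.cos (x * Real.cos θ)) =
        Pool.Agent.H73.PD.bA x := rfl
      rw [e]
      linarith
    rcases le_total 0 x with hx | hx
    · exact key x hx
    · rw [← heven]
      exact key (-x) (by linarith)
  · have : 1 / 0.40277 ≤ 1 / m := one_div_le_one_div_of_le m0 m2
    norm_num at this ⊢
    linarith
  · have : 1 / m ≤ 1 / 0.401 := one_div_le_one_div_of_le (by norm_num) m1
    norm_num at this ⊢
    linarith
  · intro d hd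
    have hC : ∀ h : ℝ, 0 < h → Pool.Agent.Y357.PD.Good d {h} ((d + 1) ^ d) :=
      fun h hh => Pool.Agent.Y357.PD.good_one (by omega) hh
    refine ⟨Pool.Agent.Y357.PD.f d, fun k => (Pool.Agent.Y357.PD.f_greatest hC k).1,
      fun k => ⟨Pool.Agent.H73.PD.pow_le_f m0 hJ hd hC k,
        (Pool.Agent.Y357.PD.f_greatest hC k).2⟩,
      ?_, Pool.Agent.Y357.PD.f_mul hC, Pool.Agent.H73.PD.growth_ge m0 hJ hd hC⟩
    intro hd2 k
    subst hd2
    exact (Pool.Agent.Y357.PD.f_greatest (fun h hh => Pool.Agent.Y357.PD.good_seven hh) k).2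
  · intro c c1 c2
    have c3 : (c - 1) * m < 1 := by
      have : c - 1 < 1 / m := by linarith
      rwa [lt_div_iff₀ m0] at this
    obtain ⟨Q, Q1, hQ⟩ := Pool.Agent.H73.PD.exists_LPI m0.le hJ c1 c3
    exact ⟨Q, Q1, fun k h hh => ⟨density_bound c1 hQ hh, fun d hd => colour_bound c1 hQ hd hh⟩⟩
  · intro k h hh
    exact ⟨density_bound (by norm_num) Pool.Agent.H73.PD.LPI_three hh,
      fun d hd => colour_bound (by norm_num) Pool.Agent.H73.PD.LPI_three hd hh⟩
  · intro k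
    refine ⟨fun i => by positivity, fun i j hij => ?_, fun i j =>
      ⟨(10 : ℚ) ^ (6 * (i : ℕ)) / (10 : ℚ) ^ (6 * (j : ℕ)), ?_⟩⟩
    · rw [← pow_add]
      have h1 : (i : ℕ) + 1 ≤ j := hij
      exact pow_le_pow_right₀ (by norm_num) (by omega)
    · push_cast
      field_simp

end Pool.Agent.Results.MP_843c79_co.BesselBase
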